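import Pool.Agent.Helper90.TS.Stmts

/-!
# TS: module GEN
-/

set_option autoImplicit false

namespace Pool.Agent.Helper90.TS

theorem st_GEN (hC : ST_COV) (hU : ST_RUN) (hK : ST_RKB) (hB : ST_RBAS) : ST_GEN := by
  intro V G _ _ X C hCc ι _ α D hD hα hα1
  obtain ⟨b1, b2, b3, b4, b5⟩ := hB V G X ι
  have hcnt : {E : Set (ι → V) | X.Ov C E ∧ E ⊆ D ∧ ¬ X.Rge α E}.Countable :=
    (hC V G X C hCc ι).mono fun E hE => hE.1
  have hne : {E : Set (ι → V) | X.Ov C E ∧ E ⊆ D ∧ ¬ X.Rge α E}.Nonempty := by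
    refine ⟨∅, ov_empty, Set.empty_subset _, fun h => ?_⟩
    have := ((rge_iff X _ _).1 h).2.1
    exact Set.not_nonempty_empty this
  obtain ⟨f, hf⟩ := hcnt.exists_eq_range hne
  have hf' : ∀ i, X.Ov C (f i) ∧ f i ⊆ D ∧ ¬ X.Rge α (f i) := by
    intro i
    have : f i ∈ {E : Set (ι → V) | X.Ov C E ∧ E ⊆ D ∧ ¬ X.Rge α E} := by
      rw [hf]
      exact ⟨i, rfl⟩
    exact this
  have hDne : D.Nonempty := ((rge_iff X _ _).1 hα).2.1
  obtain ⟨x, hx⟩ := X.sat ι (fun i => D \ f i) (fun i => X.diff ι D hD.1 _ (hf' i).1.1) (by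
    intro k
    by_contra hno
    have hsub : D ⊆ ⋃ i : Fin k, f i := by
      intro x hx
      by_contra hx2
      apply hno
      refine ⟨x, fun i hi => ⟨hx, fun hxi => ?_⟩⟩
      exact hx2 (Set.mem_iUnion.2 ⟨⟨i, hi⟩, hxi⟩)
    have hdf : (⋃ i : Fin k, f i) ∈ X.Df ι :=
      (ov_iUnion (X := X) (A := C) (F := fun i : Fin k => f i) fun i => (hf' i).1).1
    obtain ⟨j, hj⟩ := (hU V G X ι α).2 (Fin k) (fun i => f i) (fun i => (hf' i).1.1)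
      (b1 α D _ hdf hsub hα)
    exact (hf' j).2.2 hj)
  have hxD : x ∈ D := (hx 0).1
  refine ⟨x, hxD, ?_⟩
  obtain ⟨k1, k2, k3, k4, k5, k6⟩ := hK V G X ι x
  apply le_antisymm (k2 C D α hD hxD hα1)
  by_contra hlt
  obtain ⟨H, h1, h2, h3⟩ := k1 C
  have h4 : ¬ X.Rge α (H ∩ D) := by
    intro h
    exact hlt ((h3 α).1 (b1 α _ _ h1.1 Set.inter_subset_left h))
  have h5 : H ∩ D ∈ {E : Set (ι → V) | X.Ov C E ∧ E ⊆ D ∧ ¬ X.Rge α E} :=
    ⟨ov_inter h1 hD, Set.inter_subset_right, h4⟩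
  rw [hf] at h5
  obtain ⟨i, hi⟩ := h5
  have h6 := (hx i).2
  apply h6
  rw [hi]
  exact ⟨h2, hxD⟩

end Pool.Agent.Helper90.TS
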