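import Pool.Agent.Helper90.TS.Stmts

/-!
# TS: module RBAS
-/

set_option autoImplicit false

namespace Pool.Agent.Helper90.TS

theorem rbas_mono {V G : Type} [Group G] [MulAction G V] (X : Ctx V G) {ι : Type}
    {α : Ordinal.{0}} {D E : Set (ι → V)} (hE : E ∈ X.Df ι) (hDE : D ⊆ E) (h : X.Rge α D) :
    X.Rge α E := by
  rw [rge_iff] at h ⊢
  obtain ⟨_, h2, h3⟩ := h
  refine ⟨hE, h2.mono hDE, fun β hβ => ?_⟩
  obtain ⟨F, f1, f2, f3⟩ := h3 β hβ
  exact ⟨F, fun i => (f1 i).trans hDE, f2, f3⟩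

theorem rbas_le {V G : Type} [Group G] [MulAction G V] (X : Ctx V G) {ι : Type}
    {α β : Ordinal.{0}} {D : Set (ι → V)} (hβ : β ≤ α) (h : X.Rge α D) : X.Rge β D := by
  rw [rge_iff] at h ⊢
  obtain ⟨h1, h2, h3⟩ := h
  exact ⟨h1, h2, fun γ hγ => h3 γ (lt_of_lt_of_le hγ hβ)⟩

theorem rbas_smul {V G : Type} [Group G] [MulAction G V] (X : Ctx V G) {ι : Type} [Finite ι]
    (g : G) : ∀ (α : Ordinal.{0}) (D : Set (ι → V)), X.Rge α D → X.Rge α {x | g • x ∈ D} := by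
  intro α
  induction α using WellFoundedLT.induction with
  | ind α ih =>
    intro D h
    rw [rge_iff] at h ⊢
    obtain ⟨h1, ⟨x, hx⟩, h3⟩ := h
    refine ⟨X.smul ι D h1 g, ⟨g⁻¹ • x, by simpa using hx⟩, fun β hβ => ?_⟩
    obtain ⟨F, f1, f2, f3⟩ := h3 β hβ
    refine ⟨fun i => {x | g • x ∈ F i}, fun i x hx => f1 i hx, fun i j hij => ?_, fun i =>
      ih β hβ (F i) (f3 i)⟩
    rw [Set.disjoint_left]
    intro x hx hx'
    exact (Set.disjoint_left.1 (f2 i j hij)) hx hx'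

theorem st_RBAS : ST_RBAS := by
  intro V G _ _ X ι _
  refine ⟨fun α D E hE hDE h => rbas_mono X hE hDE h, fun α β D hβ h => rbas_le X hβ h,
    fun α D g => ⟨fun h => ?_, rbas_smul X g α D⟩, fun D => ?_, fun α D h1 h2 h3 => ?_⟩
  · have := rbas_smul X g⁻¹ α _ h
    have e : {x | g⁻¹ • x ∈ {x : ι → V | g • x ∈ D}} = D := by
      ext x
      simp
    rwa [e] at this
  · rw [rge_iff]
    exact ⟨fun h => ⟨h.1, h.2.1⟩, fun h => ⟨h.1, h.2, fun β hβ => absurd hβ (not_lt_zero)⟩⟩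
  · rw [rge_iff]
    refine ⟨h1, h2, fun β hβ => ?_⟩
    exact ((rge_iff X _ D).1 (h3 β hβ)).2.2 β (Order.lt_succ β)

end Pool.Agent.Helper90.TS
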