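import Pool.Agent.Helper90.TS.Stmts

/-!
# TS: module RFIN
-/

set_option autoImplicit false

namespace Pool.Agent.Helper90.TS

theorem rfin_exists (hT : ST_TREE) (hB : ST_RBAS) {V G : Type} [Group G] [MulAction G V]
    (X : Ctx V G) {ι : Type} [Finite ι] (D : Set (ι → V)) : ∃ α : Ordinal.{0}, ¬ X.Rge α D := by
  by_contra hc
  rw [not_exists] at hc
  refine hT V G X ι (fun D => ∀ α : Ordinal.{0}, X.Rge α D) ?_ D (fun α => not_not.1 (hc α))
  intro D' hD'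
  have h0 := (rge_iff X 0 D').1 (hD' 0)
  refine ⟨h0.1, h0.2.1, ?_⟩
  by_contra hno
  have hno' : ∀ q : Set (ι → V) × Set (ι → V), ∃ α : Ordinal.{0}, q.1 ⊆ D' → q.2 ⊆ D' →
      Disjoint q.1 q.2 → ¬ (X.Rge α q.1 ∧ X.Rge α q.2) := by
    intro q
    by_contra hq
    rw [not_exists] at hq
    apply hno
    have h1 := hq 0
    simp only [Classical.not_imp, not_not] at h1
    refine ⟨q.1, q.2, h1.1, h1.2.1, h1.2.2.1, fun α => ?_, fun α => ?_⟩
    · have h2 := hq α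
      simp only [Classical.not_imp, not_not] at h2
      exact h2.2.2.2.1
    · have h2 := hq α
      simp only [Classical.not_imp, not_not] at h2
      exact h2.2.2.2.2
  choose a ha using hno'
  obtain ⟨F, f1, f2, f3⟩ := ((rge_iff X _ D').1 (hD' (Order.succ (⨆ q, a q)))).2.2 (⨆ q, a q)
    (Order.lt_succ _)
  have hle : a (F 0, F 1) ≤ ⨆ q, a q := Ordinal.le_iSup a _
  exact ha (F 0, F 1) (f1 0) (f1 1) (f2 0 1 (by decide))
    ⟨(hB V G X ι).2.1 _ _ _ hle (f3 0), (hB V G X ι).2.1 _ _ _ hle (f3 1)⟩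

theorem st_RFIN (hT : ST_TREE) (hB : ST_RBAS) : ST_RFIN := by
  intro V G _ _ X ι _ D hD hne
  obtain ⟨b1, b2, b3, b4, b5⟩ := hB V G X ι
  have hex := rfin_exists hT hB X D
  let α₀ : Ordinal.{0} := sInf {α | ¬ X.Rge α D}
  have h0 : ¬ X.Rge α₀ D := csInf_mem (s := {α : Ordinal.{0} | ¬ X.Rge α D}) hex
  have hmin : ∀ β < α₀, X.Rge β D := by
    intro β hβ
    by_contra hc
    exact absurd hβ (not_lt.2 (csInf_le' hc))
  have hsucc : ∃ β < α₀, ¬ X.Rge (Order.succ β) D := by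
    by_contra hc
    apply h0
    refine b5 α₀ D hD hne fun β hβ => ?_
    by_contra hc2
    exact hc ⟨β, hβ, hc2⟩
  obtain ⟨β, hβ, hβ2⟩ := hsucc
  refine ⟨β, fun α => ⟨fun h => ?_, fun h => hmin α (lt_of_le_of_lt h hβ)⟩⟩
  by_contra hc
  exact hβ2 (b2 _ _ _ (Order.succ_le_of_lt (not_le.1 hc)) h)

end Pool.Agent.Helper90.TS
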