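import Pool.Agent.Helper90.TS.Stmts

/-!
# TS: module RKB
-/

set_option autoImplicit false

namespace Pool.Agent.Helper90.TS

section

variable {V G : Type} [Group G] [MulAction G V] (X : Ctx V G) {ι : Type} [Finite ι]

omit [Finite ι] in
theorem rkb_le {A : Set V} {b : ι → V} {D : Set (ι → V)} {α : Ordinal.{0}} (hD : X.Ov A D)
    (hb : b ∈ D) (h : ¬ X.Rge (Order.succ α) D) : X.rk A b ≤ α :=
  csInf_le' (s := {α | ∃ D : Set (ι → V), X.Ov A D ∧ b ∈ D ∧ ¬ X.Rge (Order.succ α) D})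
    ⟨D, hD, hb, h⟩

theorem rkb_one (hF : ST_RFIN) (A : Set V) (b : ι → V) : ∃ D : Set (ι → V), X.Ov A D ∧ b ∈ D ∧
    ∀ α : Ordinal.{0}, X.Rge α D ↔ α ≤ X.rk A b := by
  have hne : {α : Ordinal.{0} | ∃ D : Set (ι → V), X.Ov A D ∧ b ∈ D ∧
      ¬ X.Rge (Order.succ α) D}.Nonempty := by
    obtain ⟨B, hB, hb⟩ := ov_sort (X := X) b
    obtain ⟨ρ, hρ⟩ := hF V G X ι B hB.1 ⟨b, hb⟩
    refine ⟨ρ, B, ov_mono X (Set.empty_subset _) hB, hb, ?_⟩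
    rw [hρ]
    exact not_le.2 (Order.lt_succ ρ)
  obtain ⟨D, h1, h2, h3⟩ := csInf_mem hne
  obtain ⟨ρ, hρ⟩ := hF V G X ι D h1.1 ⟨b, h2⟩
  have h3' : ¬ X.Rge (Order.succ (X.rk A b)) D := h3
  have h4 : X.rk A b ≤ ρ := by
    apply rkb_le X h1 h2
    rw [hρ]
    exact not_le.2 (Order.lt_succ ρ)
  have h5 : ρ ≤ X.rk A b := by
    rw [hρ] at h3'
    exact Order.lt_succ_iff.1 (not_le.1 h3')
  have h6 : ρ = X.rk A b := le_antisymm h5 h4
  exact ⟨D, h1, h2, fun α => by rw [hρ, h6]⟩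

theorem rkb_tr_le (hF : ST_RFIN) (hB : ST_RBAS) (A : Set V) (g : G) (b : ι → V) :
    X.rk (tr g A) (g • b) ≤ X.rk A b := by
  obtain ⟨D, h1, h2, h3⟩ := rkb_one X hF A b
  have h4 := ov_smul h1 g⁻¹
  rw [inv_inv] at h4
  refine rkb_le X h4 (by simpa using h2) ?_
  rw [(hB V G X ι).2.2.1, h3]
  exact not_le.2 (Order.lt_succ _)

theorem rkb_tr (hF : ST_RFIN) (hB : ST_RBAS) (A : Set V) (g : G) (b : ι → V) :
    X.rk (tr g A) (g • b) = X.rk A b := by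
  apply le_antisymm (rkb_tr_le X hF hB A g b)
  have h := rkb_tr_le X hF hB (tr g A) g⁻¹ (g • b)
  have e : tr g⁻¹ (tr g A) = A := by
    ext x
    rw [mem_tr, mem_tr]
    simp
  rwa [e, inv_smul_smul] at h

end

theorem st_RKB (hF : ST_RFIN) (hB : ST_RBAS) : ST_RKB := by
  intro V G _ _ X ι _ b
  refine ⟨fun A => rkb_one X hF A b, fun A D α h1 h2 h3 => rkb_le X h1 h2 h3,
    fun A D h1 h2 => ?_, fun A B hAB => ?_, fun A g => rkb_tr X hF hB A g b, fun A b' h => ?_⟩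
  · obtain ⟨ρ, hρ⟩ := hF V G X ι D h1.1 ⟨b, h2⟩
    rw [hρ]
    apply rkb_le X h1 h2
    rw [hρ]
    exact not_le.2 (Order.lt_succ ρ)
  · obtain ⟨D, h1, h2, h3⟩ := rkb_one X hF A b
    apply rkb_le X (ov_mono X hAB h1) h2
    rw [h3]
    exact not_le.2 (Order.lt_succ _)
  · obtain ⟨g, hg, rfl⟩ := h
    have := rkb_tr X hF hB A g b
    rwa [tr_fx hg] at this

end Pool.Agent.Helper90.TS
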