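import Pool.Agent.Helper90.TS.Stmts

/-!
# TS: module RUN
-/

set_option autoImplicit false

namespace Pool.Agent.Helper90.TS

theorem run_inter {V G : Type} [Group G] [MulAction G V] (X : Ctx V G) {ι : Type} [Finite ι]
    {D E : Set (ι → V)} (hD : D ∈ X.Df ι) (hE : E ∈ X.Df ι) : D ∩ E ∈ X.Df ι :=
  (ov_inter ((ov_univ_iff X).2 hD) ((ov_univ_iff X).2 hE)).1

/-- no infinite disjoint family of subsets of rank at least `β` -/
def RunNF {V G : Type} [Group G] [MulAction G V] (X : Ctx V G) {ι : Type} (β : Ordinal.{0})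
    (D : Set (ι → V)) : Prop :=
  ¬ ∃ F : ℕ → Set (ι → V), (∀ i, F i ⊆ D) ∧ (∀ i j, i ≠ j → Disjoint (F i) (F j)) ∧
    ∀ i, X.Rge β (F i)

theorem run_not {V G : Type} [Group G] [MulAction G V] (X : Ctx V G) {ι : Type} {α : Ordinal.{0}}
    {D : Set (ι → V)} (hD : D ∈ X.Df ι) (hne : D.Nonempty) (h : ¬ X.Rge α D) :
    ∃ β < α, RunNF X β D := by
  rw [rge_iff] at h
  by_contra hc
  apply h
  refine ⟨hD, hne, fun β hβ => ?_⟩
  by_contra hc2
  exact hc ⟨β, hβ, hc2⟩

/-- a family with infinitely many good members gives a contradiction -/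
theorem run_family (hB : ST_RBAS) {V G : Type} [Group G] [MulAction G V] (X : Ctx V G) {ι : Type}
    [Finite ι] {β β₁ : Ordinal.{0}} (hβ : β₁ ≤ β) {D : Set (ι → V)} (hD : RunNF X β₁ D)
    (F : ℕ → Set (ι → V)) (hF : ∀ i j, i ≠ j → Disjoint (F i) (F j))
    (E : Set (ι → V)) (hE : ∀ i, F i ∩ E ⊆ D) (hinf : {i | X.Rge β (F i ∩ E)}.Infinite) : False := by
  let e := Set.Infinite.natEmbedding _ hinf
  apply hD
  refine ⟨fun k => F (e k : ℕ) ∩ E, fun k => hE _, fun i j hij => ?_, fun k => ?_⟩
  · have h1 : ((e i : {i | X.Rge β (F i ∩ E)}) : ℕ) ≠ (e j : {i | X.Rge β (F i ∩ E)}) :=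
      fun h => hij (e.injective (Subtype.ext h))
    exact (hF _ _ h1).mono Set.inter_subset_left Set.inter_subset_left
  · exact (hB V G X ι).2.1 _ _ _ hβ (e k).2

theorem run_two (hB : ST_RBAS) {V G : Type} [Group G] [MulAction G V] (X : Ctx V G) {ι : Type}
    [Finite ι] : ∀ (α : Ordinal.{0}) (D E : Set (ι → V)), D ∈ X.Df ι → E ∈ X.Df ι →
      X.Rge α (D ∪ E) → X.Rge α D ∨ X.Rge α E := by
  intro α
  induction α using WellFoundedLT.induction with
  | ind α ih =>
    intro D E hD hE h
    by_contra hc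
    rw [not_or] at hc
    obtain ⟨hc1, hc2⟩ := hc
    rcases D.eq_empty_or_nonempty with hD0 | hD0
    · rw [hD0, Set.empty_union] at h
      exact hc2 h
    rcases E.eq_empty_or_nonempty with hE0 | hE0
    · rw [hE0, Set.union_empty] at h
      exact hc1 h
    obtain ⟨β₁, hβ₁, n1⟩ := run_not X hD hD0 hc1
    obtain ⟨β₂, hβ₂, n2⟩ := run_not X hE hE0 hc2
    have hβ : max β₁ β₂ < α := max_lt hβ₁ hβ₂
    obtain ⟨F, f1, f2, f3⟩ := ((rge_iff X α _).1 h).2.2 _ hβ
    have hdec : ∀ i, X.Rge (max β₁ β₂) (F i ∩ D) ∨ X.Rge (max β₁ β₂) (F i ∩ E) := by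
      intro i
      have hFi : F i ∈ X.Df ι := ((rge_iff X _ _).1 (f3 i)).1
      have e : F i = (F i ∩ D) ∪ (F i ∩ E) := by
        rw [← Set.inter_union_distrib_left]
        exact (Set.inter_eq_left.2 (f1 i)).symm
      have h2 := f3 i
      rw [e] at h2
      exact ih _ hβ _ _ (run_inter X hFi hD) (run_inter X hFi hE) h2
    by_cases hinf : {i | X.Rge (max β₁ β₂) (F i ∩ D)}.Infinite
    · exact run_family hB X (le_max_left _ _) n1 F f2 D (fun i => Set.inter_subset_right) hinf
    · have hinf2 : {i | X.Rge (max β₁ β₂) (F i ∩ E)}.Infinite := by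
        intro hfin
        have hu : ({i | X.Rge (max β₁ β₂) (F i ∩ D)} ∪ {i | X.Rge (max β₁ β₂) (F i ∩ E)}) =
            Set.univ := by
          ext i
          simp only [Set.mem_univ, iff_true]
          exact hdec i
        have hf := (Set.not_infinite.1 hinf).union hfin
        rw [hu] at hf
        exact Set.infinite_univ hf
      exact run_family hB X (le_max_right _ _) n2 F f2 E (fun i => Set.inter_subset_right) hinf2

theorem st_RUN (hB : ST_RBAS) : ST_RUN := by
  intro V G _ _ X ι _ α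
  refine ⟨run_two hB X α, ?_⟩
  intro J _ F hF h
  classical
  have key : ∀ s : Set J, s.Finite → X.Rge α (⋃ j ∈ s, F j) → ∃ j, X.Rge α (F j) := by
    intro s hs
    induction s, hs using Set.Finite.induction_on with
    | empty =>
      intro h
      have h2 := ((rge_iff X _ _).1 h).2.1
      simp at h2
    | @insert a s _ hsf ih =>
      intro h
      rw [Set.biUnion_insert] at h
      have hD : (⋃ j ∈ s, F j) ∈ X.Df ι := by
        have hfin : Finite s := hsf.to_subtype
        have := ov_iUnion (X := X) (A := Set.univ) (F := fun j : s => F j)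
          (fun j => (ov_univ_iff X).2 (hF j))
        have e : (⋃ j ∈ s, F j) = ⋃ j : s, F j := by
          rw [Set.biUnion_eq_iUnion]
        rw [e]
        exact this.1
      rcases run_two hB X α _ _ (hF a) hD h with h1 | h1
      · exact ⟨a, h1⟩
      · exact ih h1
  exact key Set.univ Set.finite_univ (by simpa using h)

end Pool.Agent.Helper90.TS
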